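import Pool.Agent.helper7.PQ.Spec

set_option autoImplicit false

open Finset PowerSeries

noncomputable section

namespace Pool.Agent.PQ

open Pool.Agent.EP

theorem EPJ_mu (b t n₀ u₀ μ : ℕ) (r : ℕ → ZMod 2) (s : Finset ℕ) (h : EDat b t r n₀ u₀ μ s) :
    24 * t + 1 ≤ μ ^ 2 := by
  obtain ⟨-, hb, ht, -, -, -, -, -, hs, -, hμ, hd⟩ := h
  have h1 := Nat.le_of_dvd (Nat.succ_pos μ) hd
  have h2 : 1 ≤ ∏ q ∈ s, q := Nat.one_le_iff_ne_zero.2 (Finset.prod_ne_zero_iff.2 fun q hq =>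
    (hs q hq).1.ne_zero)
  have h3 : 8 ≤ 2 ^ b := by
    calc 8 = 2 ^ 3 := by norm_num
      _ ≤ 2 ^ b := Nat.pow_le_pow_right (by norm_num) hb
  have h4 : 24 * t * 8 ≤ 24 * t * 2 ^ b * ∏ q ∈ s, q := by
    calc 24 * t * 8 = 24 * t * 8 * 1 := by ring
      _ ≤ 24 * t * 2 ^ b * ∏ q ∈ s, q :=
        Nat.mul_le_mul (Nat.mul_le_mul_left _ h3) h2
  have h5 : 24 * t + 1 ≤ μ := by omega
  have h6 : μ ≤ μ ^ 2 := by
    rw [pow_two]
    exact Nat.le_mul_of_pos_left _ hμ.pos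
  omega

theorem EPJ (hBAD : BAD_stmt) (hCHW : CHW_stmt) (hPRE : PRE_stmt) : EPJ_stmt := by
  classical
  intro b t n₀ u₀ μ r s e hE
  obtain ⟨C₀, hC₀, hbad⟩ := hBAD
  obtain ⟨⟨c, y₁, hc, hA⟩, ⟨c', y₂, hc', hD⟩⟩ := hPRE b t n₀ u₀ μ r s hE
  have hmu := EPJ_mu b t n₀ u₀ μ r s hE
  obtain ⟨-, hb, ht, hper, hn₀, hr1, hu₀, -, -, -, -, -⟩ := id hE
  have hwin := hCHW b t n₀ u₀ r ht hper hn₀ hr1 hu₀
  -- choice of K
  have hρ0 : (0 : ℝ) ≤ 1 - 1 / (2 * ((24 * t + 1 : ℕ) : ℝ)) := by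
    have : 1 / (2 * ((24 * t + 1 : ℕ) : ℝ)) ≤ 1 := by
      rw [div_le_one (by positivity)]
      push_cast
      have : (0 : ℝ) ≤ t := Nat.cast_nonneg t
      linarith
    linarith
  have hρ1 : 1 - 1 / (2 * ((24 * t + 1 : ℕ) : ℝ)) < 1 := by
    have : 0 < 1 / (2 * ((24 * t + 1 : ℕ) : ℝ)) := by positivity
    linarith
  obtain ⟨K, hK⟩ := exists_pow_lt_of_lt_one (show (0 : ℝ) < c' / (2 * C₀) by positivity) hρ1
  obtain ⟨y₃, hy₃⟩ := hbad (chi b t (mm b n₀ u₀) r) (24 * t + 1) (Nat.succ_pos _) hwin (μ ^ 2) K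
    (2 ^ b) hmu (by positivity)
  refine ⟨K, c * c' / (2 * (K + 1)), max (max y₁ y₂) (max y₃ 2), by positivity, ?_⟩
  intro y hy
  have g1 : y₁ ≤ y := (le_max_left _ _).trans ((le_max_left _ _).trans hy)
  have g2 : y₂ ≤ y := (le_max_right _ _).trans ((le_max_left _ _).trans hy)
  have g3 : y₃ ≤ y := (le_max_left _ _).trans ((le_max_right _ _).trans hy)
  have g4 : 2 ≤ y := (le_max_right _ _).trans ((le_max_right _ _).trans hy)
  have hyR : (2 : ℝ) ≤ y := by exact_mod_cast g4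
  have hL : 0 < Real.log y := Real.log_pos (by linarith)
  have hA' := hA y g1
  have hD' := hD y g2
  set A : Finset ℕ := {P ∈ Ioc y (2 * y) | PC b t μ s P} with hAdef
  set D : Finset ℕ := {P ∈ Ioc y (2 * y) | PD b t n₀ u₀ s P} with hDdef
  let F : ℕ → ℕ → ZMod 2 := fun j P' =>
    chi b t (mm b n₀ u₀) r (Nat.sqrt (μ ^ (4 * j) * P' / 2 ^ b))
  let S : ℕ → Finset (ℕ × ℕ) := fun j => {x ∈ Ioc y (2 * y) ×ˢ Ioc y (2 * y) |
    PC b t μ s x.1 ∧ PD b t n₀ u₀ s x.2 ∧ F j x.2 ≠ e ((∏ q ∈ s, q) * x.1)}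
  let G : ℕ → Finset ℕ := fun P => {P' ∈ D | ∃ j ≤ K, F j P' ≠ e ((∏ q ∈ s, q) * P)}
  -- lower bound for G
  have hG : ∀ P, c' / 2 * (y / Real.log y) ≤ (#(G P) : ℝ) := by
    intro P
    have h1 := hy₃ y g3 (e ((∏ q ∈ s, q) * P))
    have h2 : #D ≤ #(G P) + #{P' ∈ D | ¬ ∃ j ≤ K, F j P' ≠ e ((∏ q ∈ s, q) * P)} := by
      rw [card_filter_add_card_filter_not]
    have h3 : #{P' ∈ D | ¬ ∃ j ≤ K, F j P' ≠ e ((∏ q ∈ s, q) * P)} ≤
        #{p ∈ Ioc y (2 * y) | p.Prime ∧ ∀ j ≤ K, chi b t (mm b n₀ u₀) r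
          (Nat.sqrt ((μ ^ 2) ^ (2 * j) * p / 2 ^ b)) = e ((∏ q ∈ s, q) * P)} := by
      refine card_le_card fun p hp => ?_
      rw [mem_filter] at hp ⊢
      obtain ⟨hp1, hp2⟩ := hp
      rw [hDdef, mem_filter] at hp1
      refine ⟨hp1.1, hp1.2.1, fun j hj => ?_⟩
      by_contra hne
      apply hp2
      refine ⟨j, hj, ?_⟩
      show chi b t (mm b n₀ u₀) r (Nat.sqrt (μ ^ (4 * j) * p / 2 ^ b)) ≠ _
      have e1 : (μ ^ 2) ^ (2 * j) = μ ^ (4 * j) := by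
        rw [← pow_mul]
        congr 1
        ring
      rw [e1] at hne
      exact hne
    have h4 : (#D : ℝ) ≤ #(G P) + C₀ * (1 - 1 / (2 * ((24 * t + 1 : ℕ) : ℝ))) ^ K * y /
        Real.log y := by
      have h5 : (#D : ℝ) ≤ #(G P) +
          #{P' ∈ D | ¬ ∃ j ≤ K, F j P' ≠ e ((∏ q ∈ s, q) * P)} := by exact_mod_cast h2
      have h6 : (#{P' ∈ D | ¬ ∃ j ≤ K, F j P' ≠ e ((∏ q ∈ s, q) * P)} : ℝ) ≤
        #{p ∈ Ioc y (2 * y) | p.Prime ∧ ∀ j ≤ K, chi b t (mm b n₀ u₀) r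
          (Nat.sqrt ((μ ^ 2) ^ (2 * j) * p / 2 ^ b)) = e ((∏ q ∈ s, q) * P)} := by
        exact_mod_cast h3
      linarith
    have h7 : C₀ * (1 - 1 / (2 * ((24 * t + 1 : ℕ) : ℝ))) ^ K * y / Real.log y ≤
        c' / 2 * (y / Real.log y) := by
      rw [mul_div_assoc]
      refine mul_le_mul_of_nonneg_right ?_ (by positivity)
      have h8 : C₀ * (1 - 1 / (2 * ((24 * t + 1 : ℕ) : ℝ))) ^ K ≤ C₀ * (c' / (2 * C₀)) :=
        mul_le_mul_of_nonneg_left hK.le hC₀.le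
      have h9 : C₀ * (c' / (2 * C₀)) = c' / 2 := by field_simp
      linarith
    have h10 : c' * y / Real.log y = c' / 2 * (y / Real.log y) + c' / 2 * (y / Real.log y) := by
      ring
    linarith
  -- the union
  let U : Finset (ℕ × ℕ) := {x ∈ Ioc y (2 * y) ×ˢ Ioc y (2 * y) |
    PC b t μ s x.1 ∧ PD b t n₀ u₀ s x.2 ∧ ∃ j ≤ K, F j x.2 ≠ e ((∏ q ∈ s, q) * x.1)}
  have hU1 : #U ≤ ∑ j ∈ range (K + 1), #(S j) := by
    refine le_trans (card_le_card ?_) card_biUnion_le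
    intro x hx
    rw [mem_filter] at hx
    obtain ⟨hx1, hx2, hx3, j, hj, hx4⟩ := hx
    rw [mem_biUnion]
    exact ⟨j, mem_range.2 (by omega), mem_filter.2 ⟨hx1, hx2, hx3, hx4⟩⟩
  have hU2 : ∑ P ∈ A, #(G P) ≤ #U := by
    have hmap : ∀ x ∈ U, x.1 ∈ A := by
      intro x hx
      rw [mem_filter, mem_product] at hx
      rw [hAdef, mem_filter]
      exact ⟨hx.1.1, hx.2.1⟩
    rw [card_eq_sum_card_fiberwise (f := Prod.fst) (t := A) hmap]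
    refine sum_le_sum fun P hP => ?_
    refine card_le_card_of_injOn (fun P' => (P, P')) ?_ ?_
    · intro P' hP'
      rw [mem_coe, mem_filter] at hP'
      obtain ⟨h1, h2⟩ := hP'
      rw [hDdef, mem_filter] at h1
      rw [hAdef, mem_filter] at hP
      rw [mem_coe, mem_filter, mem_filter, mem_product]
      exact ⟨⟨⟨hP.1, h1.1⟩, hP.2, h1.2, h2⟩, rfl⟩
    · intro x _ x' _ hxx
      exact (Prod.mk.inj hxx).2
  have hsum : c * c' / 2 * (y / Real.log y) ^ 2 ≤ ∑ j ∈ range (K + 1), (#(S j) : ℝ) := by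
    have h1 : (∑ P ∈ A, (#(G P) : ℝ)) ≤ ∑ j ∈ range (K + 1), (#(S j) : ℝ) := by
      exact_mod_cast hU2.trans hU1
    have h2 : (#A : ℝ) * (c' / 2 * (y / Real.log y)) ≤ ∑ P ∈ A, (#(G P) : ℝ) := by
      have := Finset.card_nsmul_le_sum A (fun P => (#(G P) : ℝ)) (c' / 2 * (y / Real.log y))
        (fun P _ => hG P)
      rw [nsmul_eq_mul] at this
      exact this
    have h3 : c * (y / Real.log y) * (c' / 2 * (y / Real.log y)) ≤
        (#A : ℝ) * (c' / 2 * (y / Real.log y)) := by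
      refine mul_le_mul_of_nonneg_right ?_ (by positivity)
      rw [mul_div_assoc] at hA'
      exact hA'
    calc c * c' / 2 * (y / Real.log y) ^ 2 =
        c * (y / Real.log y) * (c' / 2 * (y / Real.log y)) := by ring
      _ ≤ _ := h3.trans (h2.trans h1)
  -- pigeonhole
  by_contra hcon
  push Not at hcon
  have hlt : ∀ j ∈ range (K + 1), (#(S j) : ℝ) <
      c * c' / (2 * (K + 1)) * (y : ℝ) ^ 2 / Real.log y ^ 2 := by
    intro j hj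
    refine lt_of_le_of_lt ?_ (hcon j (Nat.lt_succ_iff.1 (mem_range.1 hj)))
    have : #(S j) ≤ #{x ∈ Ioc y (2 * y) ×ˢ Ioc y (2 * y) | PC b t μ s x.1 ∧
        PD b t n₀ u₀ s x.2 ∧ chi b t (mm b n₀ u₀) r (Nat.sqrt (μ ^ (4 * j) * x.2 / 2 ^ b)) ≠
          e ((∏ q ∈ s, q) * x.1)} := by
      refine card_le_card fun x hx => ?_
      rw [mem_filter] at hx ⊢
      exact hx
    exact_mod_cast this
  have hlt2 := Finset.sum_lt_sum_of_nonempty (s := range (K + 1)) ⟨0, by simp⟩ hlt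
  rw [sum_const, card_range, nsmul_eq_mul] at hlt2
  have hfin : ((K + 1 : ℕ) : ℝ) * (c * c' / (2 * (K + 1)) * (y : ℝ) ^ 2 / Real.log y ^ 2) =
      c * c' / 2 * (y / Real.log y) ^ 2 := by
    push_cast
    field_simp
  rw [hfin] at hlt2
  linarith

end Pool.Agent.PQ
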